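import Pool.Agent.E8helper11.LB.Stm

/-!
# Piece BD of project LB
-/

set_option autoImplicit false

open Set MeasureTheory

namespace LB11

theorem bd_int_aux (δ : ℝ) (hδ : 0 < δ) (a : ℝ) (ha : 0 < a) :
    ∫ t in Ioi (0 : ℝ), t ^ (a - 1) * Real.exp (-(δ * t)) = (1 / δ) ^ a * Real.Gamma a :=
  Real.integral_rpow_mul_exp_neg_mul_Ioi ha hδ

theorem bd_int_aux' (δ : ℝ) (hδ : 0 < δ) (a : ℝ) (ha : 0 < a) :
    IntegrableOn (fun t : ℝ => t ^ (a - 1) * Real.exp (-(δ * t))) (Ioi 0) := by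
  by_contra hcon
  have h := bd_int_aux δ hδ a ha
  rw [integral_undef hcon] at h
  have : 0 < (1 / δ) ^ a * Real.Gamma a := mul_pos (by positivity) (Real.Gamma_pos_of_pos ha)
  linarith

/-- the majorant -/
noncomputable def bdg (δ : ℝ) (t : ℝ) : ℝ := (1 + t ^ (3 / 4 : ℝ)) * Real.exp (-(δ * t))

theorem bdg_int (δ : ℝ) (hδ : 0 < δ) :
    ∫ t : ℝ, bdg δ |t| = 2 * (1 / δ + (1 / δ) ^ (7 / 4 : ℝ) * Real.Gamma (7 / 4)) := by
  rw [integral_comp_abs]
  congr 1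
  have h1 := bd_int_aux δ hδ 1 one_pos
  have h1' := bd_int_aux' δ hδ 1 one_pos
  have h2 := bd_int_aux δ hδ (7 / 4) (by norm_num)
  have h2' := bd_int_aux' δ hδ (7 / 4) (by norm_num)
  simp only [sub_self, Real.rpow_zero, one_mul, Real.rpow_one, Real.Gamma_one, mul_one] at h1 h1'
  have e : (7 / 4 : ℝ) - 1 = 3 / 4 := by norm_num
  rw [e] at h2 h2'
  rw [← h2, ← h1, ← integral_add h1' h2']
  congr 1
  ext t
  unfold bdg
  ring

theorem bdg_integrable (δ : ℝ) (hδ : 0 < δ) : Integrable (fun t : ℝ => bdg δ |t|) := by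
  by_contra hcon
  have h := bdg_int δ hδ
  rw [integral_undef hcon] at h
  have : 0 < 2 * (1 / δ + (1 / δ) ^ (7 / 4 : ℝ) * Real.Gamma (7 / 4)) := by
    have := Real.Gamma_pos_of_pos (show (0 : ℝ) < 7 / 4 by norm_num)
    positivity
  linarith

theorem bdg_le (δ : ℝ) (hδ : 0 < δ) (hδ1 : δ ≤ 1) :
    ∫ t : ℝ, bdg δ |t| ≤ 2 * (1 + Real.Gamma (7 / 4)) * δ ^ (-(7 / 4) : ℝ) := by
  rw [bdg_int δ hδ]
  have h1 : (1 / δ) ^ (7 / 4 : ℝ) = δ ^ (-(7 / 4) : ℝ) := by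
    rw [one_div, Real.inv_rpow hδ.le, Real.rpow_neg hδ.le]
  have h2 : 1 / δ ≤ δ ^ (-(7 / 4) : ℝ) := by
    have h3 : 1 / δ = δ ^ (-1 : ℝ) := by rw [Real.rpow_neg_one, one_div]
    rw [h3]
    exact Real.rpow_le_rpow_of_exponent_ge hδ hδ1 (by norm_num)
  rw [h1]
  linarith

theorem t_BD : S_BD := by
  intro M K hM hB
  refine ⟨|K| * (2 * (1 + Real.Gamma (7 / 4))), fun δ hδ hδ1 ρ hρ => ?_⟩
  have hπ := Real.pi_gt_three
  set z : ℂ := (ρ : ℂ) * Complex.exp (((Real.pi / 2 - δ : ℝ) : ℂ) * Complex.I) with hz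
  have hz0 : z ≠ 0 := mul_ne_zero (by exact_mod_cast hρ.ne') (Complex.exp_ne_zero _)
  have hnorm : ‖z‖ = ρ := by
    rw [hz, norm_mul, Complex.norm_exp_ofReal_mul_I, mul_one, Complex.norm_real,
      Real.norm_of_nonneg hρ.le]
  have harg : Complex.arg z = Real.pi / 2 - δ := by
    rw [hz, Complex.exp_mul_I]
    exact Complex.arg_mul_cos_add_sin_mul_I hρ ⟨by linarith, by linarith⟩
  have hpt : ∀ t : ℝ, ‖z ^ (-(1 + (t : ℂ) * Complex.I)) * M t‖ ≤ |K| / ρ * bdg δ |t| := by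
    intro t
    rw [norm_mul, Complex.norm_cpow_of_ne_zero hz0, hnorm, harg]
    have hre : (-(1 + (t : ℂ) * Complex.I)).re = -1 := by simp
    have him : (-(1 + (t : ℂ) * Complex.I)).im = -t := by simp
    rw [hre, him, Real.rpow_neg_one]
    have h1 : ‖M t‖ ≤ |K| * (1 + |t| ^ (3 / 4 : ℝ)) * Real.exp (-(Real.pi * |t| / 2)) := by
      refine le_trans (hB t) ?_
      apply mul_le_mul_of_nonneg_right _ (Real.exp_pos _).le
      apply mul_le_mul (le_abs_self K) _ (by positivity) (abs_nonneg K)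
      have := Real.rpow_add_le_add_rpow (p := (3 / 4 : ℝ)) zero_le_one (abs_nonneg t)
        (by norm_num) (by norm_num)
      simpa using this
    have h2 : Real.exp ((Real.pi / 2 - δ) * t) * Real.exp (-(Real.pi * |t| / 2)) ≤
        Real.exp (-(δ * |t|)) := by
      rw [← Real.exp_add]
      apply Real.exp_le_exp.2
      rcases le_total 0 t with ht | ht
      · rw [abs_of_nonneg ht]; nlinarith
      · rw [abs_of_nonpos ht]; nlinarith
    have h3 : ρ⁻¹ / Real.exp ((Real.pi / 2 - δ) * -t) =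
        ρ⁻¹ * Real.exp ((Real.pi / 2 - δ) * t) := by
      rw [div_eq_mul_inv, ← Real.exp_neg]
      congr 2
      ring
    rw [h3]
    unfold bdg
    calc ρ⁻¹ * Real.exp ((Real.pi / 2 - δ) * t) * ‖M t‖
        ≤ ρ⁻¹ * Real.exp ((Real.pi / 2 - δ) * t) *
          (|K| * (1 + |t| ^ (3 / 4 : ℝ)) * Real.exp (-(Real.pi * |t| / 2))) :=
          mul_le_mul_of_nonneg_left h1 (by positivity)
      _ = (|K| / ρ * (1 + |t| ^ (3 / 4 : ℝ))) *
          (Real.exp ((Real.pi / 2 - δ) * t) * Real.exp (-(Real.pi * |t| / 2))) := by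
          field_simp
      _ ≤ (|K| / ρ * (1 + |t| ^ (3 / 4 : ℝ))) * Real.exp (-(δ * |t|)) :=
          mul_le_mul_of_nonneg_left h2 (by positivity)
      _ = |K| / ρ * ((1 + |t| ^ (3 / 4 : ℝ)) * Real.exp (-(δ * |t|))) := by ring
  calc ‖∫ t : ℝ, z ^ (-(1 + (t : ℂ) * Complex.I)) * M t‖
      ≤ ∫ t : ℝ, |K| / ρ * bdg δ |t| :=
        norm_integral_le_of_norm_le ((bdg_integrable δ hδ).const_mul _)
          (Filter.Eventually.of_forall hpt)
    _ = |K| / ρ * ∫ t : ℝ, bdg δ |t| := by rw [integral_const_mul]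
    _ ≤ |K| / ρ * (2 * (1 + Real.Gamma (7 / 4)) * δ ^ (-(7 / 4) : ℝ)) :=
        mul_le_mul_of_nonneg_left (bdg_le δ hδ hδ1) (by positivity)
    _ = |K| * (2 * (1 + Real.Gamma (7 / 4))) / ρ * δ ^ (-(7 / 4) : ℝ) := by ring

end LB11
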